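import Mathlib

/-!
# Summation step

If `H K ≤ C + ∑ j < J, a j` for `K ≤ 2 J` and `∑ a j / log (j + 2)` converges then
`∑ H (2 ^ 2 ^ i) / 2 ^ i` converges.
-/

set_option autoImplicit false
open Finset

namespace Pool.Agent.Helper25.MX

/-- The entropy bound of a set of measure `v`. -/
noncomputable def psi (v : ℝ) : ℝ := v * (8 + Real.log 8) + Real.negMulLog v

theorem psi_nonneg {v : ℝ} (h0 : 0 ≤ v) (h1 : v ≤ 1) : 0 ≤ psi v := by
  unfold psi
  have h8 : 0 ≤ Real.log 8 := Real.log_nonneg (by norm_num)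
  have := Real.negMulLog_nonneg h0 h1
  positivity

/-- `v log (1 / v) ≤ v log (1 / t) + t` -/
theorem negMulLog_le {v t : ℝ} (h0 : 0 ≤ v) (ht : 0 < t) :
    Real.negMulLog v ≤ -(v * Real.log t) + t := by
  rcases h0.eq_or_lt with h | h
  · rw [← h]
    simp
    exact ht.le
  · have h1 : Real.log (t / v) ≤ t / v - 1 := Real.log_le_sub_one_of_pos (div_pos ht h)
    rw [Real.log_div ht.ne' h.ne'] at h1
    have h2 : v * (Real.log t - Real.log v) ≤ v * (t / v - 1) := mul_le_mul_of_nonneg_left h1 h.le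
    have h3 : v * (t / v - 1) = t - v := by field_simp
    rw [h3] at h2
    unfold Real.negMulLog
    nlinarith

theorem psi_summable {κ : ℕ → ℝ} (h0 : ∀ j, 0 ≤ κ j) (h1 : ∀ j, κ j ≤ 1) (hs : Summable κ) :
    Summable fun j : ℕ => psi (κ j) / Real.log ((j : ℝ) + 2) := by
  have hl2 : 0 < Real.log 2 := Real.log_pos (by norm_num)
  have hl : ∀ j : ℕ, Real.log 2 ≤ Real.log ((j : ℝ) + 2) := fun j =>
    Real.log_le_log (by norm_num) (by
      have : (0 : ℝ) ≤ j := Nat.cast_nonneg j
      linarith)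
  have h8 : 0 ≤ Real.log 8 := Real.log_nonneg (by norm_num)
  have hsq : Summable fun j : ℕ => 1 / ((j : ℝ) + 2) ^ 2 := by
    have h := (summable_nat_add_iff (f := fun n : ℕ => 1 / (n : ℝ) ^ 2) 2).2
      (Real.summable_one_div_nat_pow.2 (by norm_num))
    refine h.congr fun j => ?_
    push_cast
    rfl
  have hmaj : Summable fun j : ℕ => κ j * ((8 + Real.log 8) / Real.log 2 + 2) +
      (1 / ((j : ℝ) + 2) ^ 2) * (1 / Real.log 2) :=
    (hs.mul_right _).add (hsq.mul_right _)
  refine Summable.of_nonneg_of_le (fun j => ?_) (fun j => ?_) hmaj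
  · exact div_nonneg (psi_nonneg (h0 j) (h1 j)) (hl2.le.trans (hl j))
  · have hlj := hl j
    have hpos : 0 < Real.log ((j : ℝ) + 2) := lt_of_lt_of_le hl2 hlj
    have hj : (0 : ℝ) < (j : ℝ) + 2 := by positivity
    have h3 := negMulLog_le (h0 j) (t := 1 / ((j : ℝ) + 2) ^ 2) (by positivity)
    have h4 : Real.log (1 / ((j : ℝ) + 2) ^ 2) = -(2 * Real.log ((j : ℝ) + 2)) := by
      rw [one_div, Real.log_inv, Real.log_pow]
      push_cast
      ring
    rw [h4] at h3
    rw [div_le_iff₀ hpos]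
    unfold psi
    have h5 : κ j * (8 + Real.log 8) ≤
        κ j * ((8 + Real.log 8) / Real.log 2) * Real.log ((j : ℝ) + 2) := by
      rw [mul_assoc]
      refine mul_le_mul_of_nonneg_left ?_ (h0 j)
      rw [div_mul_eq_mul_div, le_div_iff₀ hl2]
      exact mul_le_mul_of_nonneg_left hlj (by positivity)
    have h6 : 1 / ((j : ℝ) + 2) ^ 2 ≤
        (1 / ((j : ℝ) + 2) ^ 2) * (1 / Real.log 2) * Real.log ((j : ℝ) + 2) := by
      rw [mul_assoc]
      refine le_mul_of_one_le_right (by positivity) ?_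
      rw [one_div_mul_eq_div, le_div_iff₀ hl2, one_mul]
      exact hlj
    nlinarith [h0 j]

/-- Exchange of the two sums. -/
theorem summable_ent {a H : ℕ → ℝ} {C : ℝ} (ha : ∀ j, 0 ≤ a j) (hH0 : ∀ K, 0 ≤ H K)
    (hH : ∀ K J, K ≤ 2 * J → H K ≤ C + ∑ j ∈ range J, a j)
    (hs : Summable fun j : ℕ => a j / Real.log ((j : ℝ) + 2)) :
    Summable fun i : ℕ => H (2 ^ 2 ^ i) / 2 ^ i := by
  have hl2 : 0 < Real.log 2 := Real.log_pos (by norm_num)
  have hlog : ∀ j : ℕ, 0 < Real.log ((j : ℝ) + 2) := fun j =>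
    Real.log_pos (by
      have : (0 : ℝ) ≤ j := Nat.cast_nonneg j
      linarith)
  -- the partial sums of the geometric series over the scales that see `j`
  have hgeo : ∀ (j N : ℕ), ∑ i ∈ (range N).filter (fun i => j < 2 ^ (2 ^ i)), (1 / (2 : ℝ) ^ i) ≤
      4 / Real.log ((j : ℝ) + 2) := by
    intro j N
    by_cases hex : ∃ i, j < 2 ^ (2 ^ i)
    · classical
      set m := Nat.find hex with hm
      have hm1 : j < 2 ^ (2 ^ m) := Nat.find_spec hex
      have h1 : ∑ i ∈ (range N).filter (fun i => j < 2 ^ (2 ^ i)), (1 / (2 : ℝ) ^ i) ≤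
          ∑ i ∈ Ico m (m + N), (1 / (2 : ℝ) ^ i) := by
        refine Finset.sum_le_sum_of_subset_of_nonneg ?_ fun i _ _ => by positivity
        intro i hi
        rw [mem_filter, mem_range] at hi
        rw [mem_Ico]
        exact ⟨Nat.find_min' hex hi.2, by omega⟩
      have h2 : ∑ i ∈ Ico m (m + N), (1 / (2 : ℝ) ^ i) ≤ 2 / 2 ^ m := by
        rw [Finset.sum_Ico_eq_sum_range]
        have h3 : ∀ i ∈ range (m + N - m), 1 / (2 : ℝ) ^ (m + i) =
            (1 / 2 ^ m) * (1 / 2) ^ i := by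
          intro i _
          rw [pow_add, one_div_pow]
          field_simp
        rw [Finset.sum_congr rfl h3, ← Finset.mul_sum]
        have h4 : ∑ i ∈ range (m + N - m), ((1 : ℝ) / 2) ^ i ≤ 2 := by
          rw [geom_sum_eq (by norm_num)]
          have : (0 : ℝ) ≤ (1 / 2) ^ (m + N - m) := by positivity
          rw [div_le_iff_of_neg (by norm_num)]
          linarith
        calc (1 / 2 ^ m) * ∑ i ∈ range (m + N - m), ((1 : ℝ) / 2) ^ i ≤ (1 / 2 ^ m) * 2 :=
              mul_le_mul_of_nonneg_left h4 (by positivity)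
          _ = 2 / 2 ^ m := by ring
      refine h1.trans (h2.trans ?_)
      rw [div_le_div_iff₀ (by positivity) (hlog j)]
      -- log (j + 2) ≤ 2 * 2 ^ m
      have h5 : (j : ℝ) + 2 ≤ 2 ^ (2 ^ m) * 2 ^ 1 := by
        have h6 : j + 1 ≤ 2 ^ (2 ^ m) := hm1
        have h7 : ((j : ℝ) + 1) ≤ 2 ^ (2 ^ m) := by exact_mod_cast h6
        have h8 : (1 : ℝ) ≤ 2 ^ (2 ^ m) := one_le_pow₀ (by norm_num)
        linarith
      have h6 : Real.log ((j : ℝ) + 2) ≤ (2 ^ m + 1) * Real.log 2 := by
        refine (Real.log_le_log (by positivity) h5).trans ?_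
        rw [← pow_add, Real.log_pow]
        push_cast
        exact le_rfl
      have h7 : Real.log 2 ≤ 1 := by
        have := Real.log_two_lt_d9
        linarith
      have h8 : (1 : ℝ) ≤ 2 ^ m := one_le_pow₀ (by norm_num)
      nlinarith
    · push Not at hex
      have h1 : (range N).filter (fun i => j < 2 ^ (2 ^ i)) = ∅ := by
        rw [filter_eq_empty_iff]
        intro i _
        exact not_lt.2 (hex i)
      rw [h1, Finset.sum_empty]
      exact div_nonneg (by norm_num) (hlog j).le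
  refine summable_of_sum_range_le (c := 2 * |C| +
    4 * ∑' j : ℕ, a j / Real.log ((j : ℝ) + 2)) (fun i => by
      have := hH0 (2 ^ 2 ^ i)
      positivity) fun N => ?_
  have h1 : ∀ i ∈ range N, H (2 ^ 2 ^ i) / 2 ^ i ≤
      |C| * (1 / 2) ^ i + ∑ j ∈ range (2 ^ 2 ^ N), if j < 2 ^ (2 ^ i) then a j / 2 ^ i else 0 := by
    intro i hi
    rw [mem_range] at hi
    have h2 := hH (2 ^ 2 ^ i) (2 ^ 2 ^ i) (by omega)
    have h3 : H (2 ^ 2 ^ i) / 2 ^ i ≤ (|C| + ∑ j ∈ range (2 ^ 2 ^ i), a j) / 2 ^ i :=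
      div_le_div_of_nonneg_right (h2.trans (by
        have := le_abs_self C
        linarith)) (by positivity)
    refine h3.trans (le_of_eq ?_)
    rw [add_div, Finset.sum_div, one_div_pow]
    congr 1
    · ring
    · rw [← Finset.sum_filter]
      refine Finset.sum_congr ?_ fun _ _ => rfl
      ext j
      rw [mem_filter, mem_range, mem_range]
      constructor
      · intro h
        exact ⟨lt_of_lt_of_le h (Nat.pow_le_pow_right (by norm_num)
          (Nat.pow_le_pow_right (by norm_num) hi.le)), h⟩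
      · exact fun h => h.2
  refine (Finset.sum_le_sum h1).trans ?_
  rw [Finset.sum_add_distrib, ← Finset.mul_sum, Finset.sum_comm]
  have h4 : ∑ i ∈ range N, ((1 : ℝ) / 2) ^ i ≤ 2 := by
    rw [geom_sum_eq (by norm_num)]
    have : (0 : ℝ) ≤ (1 / 2) ^ N := by positivity
    rw [div_le_iff_of_neg (by norm_num)]
    linarith
  have h5 : ∀ j ∈ range (2 ^ 2 ^ N), (∑ i ∈ range N, if j < 2 ^ (2 ^ i) then a j / 2 ^ i else 0) ≤
      4 * (a j / Real.log ((j : ℝ) + 2)) := by
    intro j _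
    rw [← Finset.sum_filter]
    have h6 : ∑ i ∈ (range N).filter (fun i => j < 2 ^ (2 ^ i)), a j / (2 : ℝ) ^ i =
        a j * ∑ i ∈ (range N).filter (fun i => j < 2 ^ (2 ^ i)), (1 / (2 : ℝ) ^ i) := by
      rw [Finset.mul_sum]
      exact Finset.sum_congr rfl fun i _ => by ring
    rw [h6]
    refine (mul_le_mul_of_nonneg_left (hgeo j N) (ha j)).trans (le_of_eq ?_)
    ring
  refine add_le_add ?_ ?_
  · have := abs_nonneg C
    nlinarith
  · refine (Finset.sum_le_sum h5).trans ?_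
    rw [← Finset.mul_sum]
    refine mul_le_mul_of_nonneg_left ?_ (by norm_num)
    exact hs.sum_le_tsum _ fun j _ => div_nonneg (ha j) (hlog j).le

end Pool.Agent.Helper25.MX
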