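import Mathlib
import Pool.Agent.Helper40.LPA.Trace
import Pool.Agent.Helper87.MX.Fr3

/-!
# Equivalences at trace level: coefficients close to one, coboundaries, odd Lipschitz functions
-/

set_option autoImplicit false

open MeasureTheory Filter Topology Finset Helper17.FU Helper17.FUGroup Helper91.TTT

namespace Pool.Agent.Helper25.MX

open Pool.Agent.Helper87.MX (S_RG1 S_RG2 S_RG3 S_CB Inv cf OddLip far)

variable {s2 s3 t : Equiv.Perm ℚ}

/-- The measure of an extreme trace is invariant. -/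
theorem inv_of_extreme (h2 : ∀ x : ℚ, s2 x = 2 * x) (h3 : ∀ x : ℚ, s3 x = 3 * x)
    (ht : ∀ x : ℚ, t x = x + 1) {τ : GG s2 s3 t} (hτ : (τ : Equiv.Perm ℚ) = t)
    {φ : GG s2 s3 t → ℂ} (hφ : φ ∈ Set.extremePoints ℝ (TR (GG s2 s3 t)))
    {μ : Measure (AddCircle (1 : ℝ))} [IsProbabilityMeasure μ]
    (hμ : ∀ n : ℤ, ∫ x, (fourier n x : ℂ) ∂μ = φ (τ ^ n)) : Inv 2 μ ∧ Inv 3 μ := by
  obtain ⟨μ', hμ'p, hμ', hm2, hm3⟩ := Pool.Agent.Helper40.TMA.exists_measure h2 h3 ht hτ hφ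
  have h5 : μ = μ' := by
    apply Helper17.TranslM.eq_of_fourier
    intro m
    rw [hμ' m]
    exact hμ m
  rw [h5]
  exact ⟨hm2, hm3⟩

/-- A character whose coefficient is one is one almost everywhere. -/
theorem ae_eq_one {μ : Measure (AddCircle (1 : ℝ))} [IsProbabilityMeasure μ] {n : ℤ}
    (h : ∫ x, (fourier n x : ℂ) ∂μ = 1) : ∀ᵐ x ∂μ, (fourier n x : ℂ) = 1 := by
  have hint : Integrable (fun x : AddCircle (1 : ℝ) => (fourier n x : ℂ)) μ := by
    refine Integrable.of_bound (fourier n).continuous.aestronglyMeasurable 1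
      (Eventually.of_forall fun x => ?_)
    rw [fourier_apply]
    exact (Circle.norm_coe _).le
  have hre : Integrable (fun x : AddCircle (1 : ℝ) => (fourier n x : ℂ).re) μ := hint.re
  have h1 : ∫ x, (fourier n x : ℂ).re ∂μ = 1 := by
    have h2 := integral_re hint
    simp only [RCLike.re_to_complex] at h2
    rw [h2, h]
    simp
  have hle : ∀ x : AddCircle (1 : ℝ), (fourier n x : ℂ).re ≤ 1 := fun x => by
    refine (Complex.re_le_norm _).trans ?_
    rw [fourier_apply]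
    exact (Circle.norm_coe _).le
  have h3 : ∫ x, (1 - (fourier n x : ℂ).re) ∂μ = 0 := by
    rw [integral_sub (integrable_const _) hre, h1]
    simp
  have h4 := (integral_eq_zero_iff_of_nonneg (fun x => sub_nonneg.2 (hle x))
    ((integrable_const _).sub hre)).1 h3
  filter_upwards [h4] with x hx
  have hx1 : (fourier n x : ℂ).re = 1 := by
    have : 1 - (fourier n x : ℂ).re = 0 := hx
    linarith
  have hx2 : ‖(fourier n x : ℂ)‖ = 1 := by
    rw [fourier_apply]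
    exact Circle.norm_coe _
  have hx3 : (fourier n x : ℂ).im = 0 := by
    have h5 := Complex.sq_norm (fourier n x : ℂ)
    rw [hx2, Complex.normSq_apply, hx1] at h5
    nlinarith
  exact Complex.ext (by rw [hx1]; simp) (by rw [hx3]; simp)

/-- TL5 -/
theorem trace_tfae (hRG1 : S_RG1) (hRG2 : S_RG2) (hRG3 : S_RG3) (hCB : S_CB)
    (h2 : ∀ x : ℚ, s2 x = 2 * x) (h3 : ∀ x : ℚ, s3 x = 3 * x)
    (ht : ∀ x : ℚ, t x = x + 1) {τ : GG s2 s3 t} (hτ : (τ : Equiv.Perm ℚ) = t)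
    {φ : GG s2 s3 t → ℂ} (hφ : φ ∈ Set.extremePoints ℝ (TR (GG s2 s3 t)))
    {μ : Measure (AddCircle (1 : ℝ))} (hμp : IsProbabilityMeasure μ)
    (hμ : ∀ n : ℤ, ∫ x, (fourier n x : ℂ) ∂μ = φ (τ ^ n)) :
    List.TFAE [
      FiniteDimensional ℂ (Submodule.span ℂ {F : GG s2 s3 t → ℂ | ∃ n : GG s2 s3 t,
        IsTr n ∧ F = fun x => φ (n * x)}),
      ∃ N : ℕ, 1 ≤ N ∧ φ (τ ^ N) = 1,
      ∃ n : ℕ → ℕ, (∀ j, 1 ≤ n j ∧ n j ≤ 2 ^ j) ∧ Summable fun j => ‖1 - φ (τ ^ n j)‖,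
      ∃ (k : ℕ) (g : AddCircle (1 : ℝ) → ℂ), 1 ≤ k ∧ φ (τ ^ k) ≠ 0 ∧ Integrable g μ ∧
        ∀ᵐ x ∂μ, (fourier (k : ℤ) x : ℂ) - φ (τ ^ k) = g x - g ((3 : ℕ) • x),
      ∃ P : ℕ → AddCircle (1 : ℝ) → ℂ, (∀ j, OddLip j (P j)) ∧ Summable fun j : ℕ =>
        (far μ (P j) + Real.negMulLog (far μ (P j))) / Real.log ((j : ℝ) + 2)] := by
  obtain ⟨hm2, hm3⟩ := inv_of_extreme h2 h3 ht hτ hφ hμ
  have hcf : ∀ k : ℕ, cf μ k = φ (τ ^ k) := fun k => by
    have h := hμ k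
    rw [zpow_natCast] at h
    exact h
  have hatom : (∃ x, μ {x} ≠ 0) → FiniteDimensional ℂ (Submodule.span ℂ
      {F : GG s2 s3 t → ℂ | ∃ n : GG s2 s3 t, IsTr n ∧ F = fun x => φ (n * x)}) := by
    rintro ⟨x, hx⟩
    by_contra hfd
    exact hx (Pool.Agent.Helper40.LPA.no_atoms_of_infinite h2 h3 ht hτ hφ hμ hfd x)
  tfae_have 1 → 2 := by
    intro hfd
    obtain ⟨N, hN, h⟩ := hRG3 μ hμp hm2 (Pool.Agent.Helper40.LPA.finite_of_fd ht hτ hμ hfd)
    exact ⟨N, hN, (hcf N).symm.trans h⟩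
  tfae_have 2 → 3 := by
    rintro ⟨N, hN, h⟩
    refine ⟨fun j => if N ≤ 2 ^ j then N else 1, fun j => ?_, ?_⟩
    · dsimp only
      split_ifs with hj
      · exact ⟨hN, hj⟩
      · exact ⟨le_rfl, Nat.one_le_two_pow⟩
    · refine summable_of_ne_finset_zero (s := range N) fun j hj => ?_
      rw [mem_range, not_lt] at hj
      have h5 : N ≤ 2 ^ j := hj.trans Nat.lt_two_pow_self.le
      dsimp only
      rw [if_pos h5, h, sub_self, norm_zero]
  tfae_have 3 → 5 := by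
    rintro ⟨n, hn, hs⟩
    obtain ⟨P, hP, hfar⟩ := hRG1 μ hμp hm2 n hn (hs.congr fun j => by rw [hcf])
    refine ⟨P, hP, ?_⟩
    have h0 : ∀ j, 0 ≤ far μ (P j) := fun j => measureReal_nonneg
    have h1 : ∀ j, far μ (P j) ≤ 1 := fun j => measureReal_le_one
    have h5 := psi_summable h0 h1 hfar
    refine Summable.of_nonneg_of_le (fun j => ?_) (fun j => ?_) h5
    · refine div_nonneg (add_nonneg (h0 j) (Real.negMulLog_nonneg (h0 j) (h1 j))) ?_
      exact Real.log_nonneg (by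
        have : (0 : ℝ) ≤ j := Nat.cast_nonneg j
        linarith)
    · refine div_le_div_of_nonneg_right ?_ (Real.log_nonneg (by
        have : (0 : ℝ) ≤ j := Nat.cast_nonneg j
        linarith))
      unfold psi
      have h8 : 0 ≤ Real.log 8 := Real.log_nonneg (by norm_num)
      nlinarith [h0 j, mul_nonneg (h0 j) h8]
  tfae_have 2 → 4 := by
    rintro ⟨N, hN, h⟩
    refine ⟨N, fun _ => 0, hN, by rw [h]; exact one_ne_zero, integrable_zero _ _ _, ?_⟩
    have h5 : ∫ x, (fourier (N : ℤ) x : ℂ) ∂μ = 1 := (hcf N).trans h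
    filter_upwards [ae_eq_one h5] with x hx
    rw [hx, h]
    simp
  tfae_have 4 → 1 := by
    rintro ⟨k, g, hk, hne, hg, hae⟩
    refine hatom (hCB μ hμp hm2 hm3 k g hk (by rw [hcf]; exact hne) hg ?_)
    filter_upwards [hae] with x hx
    rw [hcf]
    exact hx
  tfae_have 5 → 1 := by
    rintro ⟨P, hP, hs⟩
    exact hatom (hRG2 μ hμp hm2 hm3 P hP hs)
  tfae_finish

end Pool.Agent.Helper25.MX
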