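import Mathlib
import Pool.Agent.Helper25.MX.Tl5
import Pool.Agent.Helper35.MX.Win8
import Pool.Agent.Helper87.MX.Fr4
import Pool.Agent.Helper87.MX.FinalSt

/-!
# The nine equivalent conditions for an extreme trace
-/

set_option autoImplicit false

open MeasureTheory Filter Topology Finset Helper17.FU Helper17.FUGroup Helper91.TTT

namespace Pool.Agent.Helper25.MX

open Pool.Agent.Helper87.MX (S_RG1 S_RG2 S_RG3 S_CB S_CC S_CM S_WT S_W5 Inv cf OddLip far Mix4 wav
  rav Win su)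

variable {s2 s3 t : Equiv.Perm ℚ}

/-- The average over pairs with first entry zero is an average along powers of three. -/
theorem wav_eq_rav (k : ℕ) {F : Finset (ℕ × ℕ)} (hF : ∀ p ∈ F, p.1 = 0)
    (x : AddCircle (1 : ℝ)) : wav k F x = rav 3 k (F.image Prod.snd) x := by
  have hinj : Set.InjOn (Prod.snd : ℕ × ℕ → ℕ) F := by
    intro p hp q hq h
    exact Prod.ext ((hF p hp).trans (hF q hq).symm) h
  unfold wav rav
  rw [Finset.card_image_of_injOn hinj, Finset.sum_image hinj]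
  congr 1
  refine Finset.sum_congr rfl fun p hp => ?_
  have h : su p = 3 ^ p.2 := by
    unfold su
    rw [hF p hp, pow_zero, one_mul]
  rw [h]

/-- If the coefficient at `N` is one, so are the coefficients at the multiples of `N`. -/
theorem cf_mul_eq_one {μ : Measure (AddCircle (1 : ℝ))} [IsProbabilityMeasure μ] {N : ℤ}
    (h : cf μ N = 1) (m : ℤ) : cf μ (N * m) = 1 := by
  have h1 := ae_eq_one (μ := μ) (n := N) h
  unfold cf
  have h2 : (fun x : AddCircle (1 : ℝ) => (fourier (N * m) x : ℂ)) =ᵐ[μ] fun _ => 1 := by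
    filter_upwards [h1] with x hx
    rw [fourier_apply] at hx ⊢
    have h3 : (N * m) • x = m • (N • x) := by rw [mul_comm, mul_smul]
    have h4 : AddCircle.toCircle (N • x) = 1 := by
      apply Circle.ext
      rw [hx]
      simp
    rw [h3, AddCircle.toCircle_zsmul, h4]
    simp
  rw [integral_congr_ae h2]
  simp

/-- TL6 -/
theorem s_final (hRG1 : S_RG1) (hRG2 : S_RG2) (hRG3 : S_RG3) (hCB : S_CB) (hCC : S_CC)
    (hCM : S_CM) (hWT : S_WT) (hW5 : S_W5) : Pool.Agent.Helper87.MX.FinalSt.S_FINAL := by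
  intro s2 s3 t h2 h3 ht G hG
  subst hG
  intro τ hτ φ hφ μ hμ'
  obtain ⟨hμp, hμ⟩ := hμ'
  have hφ' : φ ∈ Set.extremePoints ℝ (TR (GG s2 s3 t)) := hφ
  obtain ⟨hm2, hm3⟩ := inv_of_extreme h2 h3 ht hτ hφ' hμ
  have hcf : ∀ k : ℕ, cf μ k = φ (τ ^ k) := fun k => by
    have h := hμ k
    rw [zpow_natCast] at h
    exact h
  have h5 := trace_tfae hRG1 hRG2 hRG3 hCB h2 h3 ht hτ hφ' hμp hμ
  have hatom : (∃ x, μ {x} ≠ 0) → FiniteDimensional ℂ (Submodule.span ℂ
      {F : GG s2 s3 t → ℂ | ∃ n : GG s2 s3 t, IsTr n ∧ F = fun x => φ (n * x)}) := by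
    rintro ⟨x, hx⟩
    by_contra hfd
    exact hx (Pool.Agent.Helper40.LPA.no_atoms_of_infinite h2 h3 ht hτ hφ' hμ hfd x)
  tfae_have 1 ↔ 2 := h5.out 0 1
  tfae_have 1 ↔ 3 := h5.out 0 2
  tfae_have 1 ↔ 5 := h5.out 0 3
  tfae_have 1 ↔ 9 := h5.out 0 4
  tfae_have 2 → 4 := by
    rintro ⟨N, hN, h⟩
    refine ⟨2, N, Or.inl rfl, hN, by rw [h]; exact one_ne_zero, fun _ => 0, 1,
      antitone_const, summable_zero, by norm_num, ?_⟩
    intro b₁ b₂ b₃ b₄ D e₁ e₂ e₃ e₄ _ _ _ _ _ _ _ _ _ _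
    have h6 : ∀ m : ℤ, φ (τ ^ ((N : ℤ) * m)) = 1 := fun m => by
      rw [← hμ]
      exact cf_mul_eq_one ((hcf N).trans h) m
    rw [h6, h6, h6]
    simp
  tfae_have 4 → 1 := by
    rintro ⟨g, k, hg, hk, hne, hmix⟩
    have h6 : cf μ = fun n : ℤ => φ (τ ^ n) := funext hμ
    have h7 : Mix4 (cf μ) g k := by
      rw [h6]
      exact hmix
    exact hatom (hCM μ hμp hm2 hm3 g k hg hk (by rw [hcf]; exact hne) h7)
  tfae_have 2 → 6 := by
    rintro ⟨N, hN, h⟩
    refine ⟨N, fun _ => {(0, 0)}, hN, by rw [h]; exact one_ne_zero, ?_, ?_⟩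
    · intro M p hp
      rw [Finset.mem_singleton] at hp
      rw [hp]
      exact ⟨rfl, Nat.zero_le _⟩
    · have h6 : μ.real {x | ‖φ (τ ^ N)‖ / 2 ≤
          ‖Pool.Agent.Helper87.MX.FinalSt.avg N {((0 : ℕ), (0 : ℕ))} x - φ (τ ^ N)‖} = 0 := by
        rw [measureReal_eq_zero_iff, measure_eq_zero_iff_ae_notMem]
        have h7 : ∫ x, (fourier (N : ℤ) x : ℂ) ∂μ = 1 := (hcf N).trans h
        filter_upwards [ae_eq_one h7] with x hx hx2
        have h8 : Pool.Agent.Helper87.MX.FinalSt.avg N {((0 : ℕ), (0 : ℕ))} x = 1 := by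
          unfold Pool.Agent.Helper87.MX.FinalSt.avg
          rw [Finset.sum_singleton, Finset.card_singleton]
          simpa using hx
        rw [h8, h] at hx2
        norm_num at hx2
      simp only [h6]
      exact summable_zero
  tfae_have 6 → 1 := by
    rintro ⟨k, F, hk, hne, hF, hs⟩
    refine hatom (hCC μ hμp hm2 hm3 k (fun N => (F N).image Prod.snd) hk
      (by rw [hcf]; exact hne) ?_ ?_)
    · intro N b hb
      rw [Finset.mem_image] at hb
      obtain ⟨p, hp, rfl⟩ := hb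
      exact (hF N p hp).2
    · refine hs.congr fun N => ?_
      rw [hcf]
      congr 1
      ext x
      have h6 := wav_eq_rav k (F := F N) (fun p hp => (hF N p hp).1) x
      change ‖φ (τ ^ k)‖ / 2 ≤ ‖wav k (F N) x - φ (τ ^ k)‖ ↔
        ‖φ (τ ^ k)‖ / 2 ≤ ‖rav 3 k ((F N).image Prod.snd) x - φ (τ ^ k)‖
      rw [h6]
  tfae_have 1 → 8 := by
    intro hfd
    obtain ⟨N, hN, h⟩ := (h5.out 0 1).1 hfd
    exact ⟨⟨N, hN, by rw [h]; exact one_ne_zero⟩,
      Pool.Agent.Helper35.MX.one_eight hW5 h2 h3 ht hτ hφ' hμ hfd⟩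
  tfae_have 8 → 7 := fun h => Pool.Agent.Helper35.MX.eight_seven (τ := τ) (φ := φ) (μ := μ) h
  tfae_have 7 → 1 := fun h => Pool.Agent.Helper35.MX.seven_one hWT h2 h3 ht hτ hφ' hμ h
  tfae_finish

end Pool.Agent.Helper25.MX
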