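import Mathlib
import Pool.Agent.Helper25.MX.Tl6
import Pool.Agent.Helper87.MX.Fr5
import Pool.Agent.Helper87.MX.FinalSt5

/-!
# The seven equivalent conditions for an extreme trace, in the words of version 5
-/

set_option autoImplicit false

open MeasureTheory Filter Topology Finset Helper17.FU Helper17.FUGroup Helper91.TTT

namespace Pool.Agent.Helper25.MX

open Pool.Agent.Helper87.MX (S_RG1 S_RG2 S_RG3 S_CB S_CC S_CM Inv cf far Mix4 rav)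

/-- Part (A) of version 5. -/
theorem part_A (hRG1 : S_RG1) (hRG2 : S_RG2) (hRG3 : S_RG3) (hCB : S_CB) (hCC : S_CC)
    (hCM : S_CM) (s2 s3 t : Equiv.Perm ℚ) (h2 : ∀ x : ℚ, s2 x = 2 * x)
    (h3 : ∀ x : ℚ, s3 x = 3 * x) (ht : ∀ x : ℚ, t x = x + 1)
    (G : Subgroup (Equiv.Perm ℚ)) (hG : G = Subgroup.closure {s2, s3, t})
    (τ : G) (hτ : (τ : Equiv.Perm ℚ) = t) (φ : G → ℂ)
    (hφ : φ ∈ Set.extremePoints ℝ (Pool.Agent.Helper87.MX.FinalSt5.traces G)) :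
    ∃ μ : Measure (AddCircle (1 : ℝ)), Pool.Agent.Helper87.MX.FinalSt5.IsMeasureOf τ φ μ ∧
      List.TFAE [
      FiniteDimensional ℂ (Pool.Agent.Helper87.MX.FinalSt5.condSpan G φ),
      ∃ N : ℕ, 1 ≤ N ∧ φ (τ ^ N) = 1,
      ∃ n : ℕ → ℕ, (∀ j, 1 ≤ n j ∧ n j ≤ 2 ^ j) ∧ Summable fun j => ‖1 - φ (τ ^ n j)‖,
      ∃ g k : ℕ, (g = 2 ∨ g = 3) ∧ 1 ≤ k ∧ φ (τ ^ k) ≠ 0 ∧
        ∃ (ρ : ℕ → ℝ) (γ : ℝ), Pool.Agent.Helper87.MX.FinalSt5.Rate ρ γ ∧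
          Pool.Agent.Helper87.MX.FinalSt5.Mixing4 τ φ g k ρ γ Set.univ,
      ∃ (k : ℕ) (g : AddCircle (1 : ℝ) → ℂ), 1 ≤ k ∧ φ (τ ^ k) ≠ 0 ∧ Integrable g μ ∧
        ∀ᵐ x ∂μ, (fourier (k : ℤ) x : ℂ) - φ (τ ^ k) = g x - g ((3 : ℕ) • x),
      ∃ (k : ℕ) (F : ℕ → Finset ℕ), 1 ≤ k ∧ φ (τ ^ k) ≠ 0 ∧ (∀ N, ∀ b ∈ F N, b ≤ N) ∧
        Summable fun N => μ.real {x | ‖φ (τ ^ k)‖ / 2 ≤
          ‖Pool.Agent.Helper87.MX.FinalSt5.avg k (F N) x - φ (τ ^ k)‖},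
      ∃ P : ℕ → AddCircle (1 : ℝ) → ℂ, (∀ j, Pool.Agent.Helper87.MX.FinalSt5.OddLip j (P j)) ∧
        Summable fun j : ℕ => Pool.Agent.Helper87.MX.FinalSt5.cost μ (P j) /
          Real.log ((j : ℝ) + 2)] := by
  subst hG
  have hφ' : φ ∈ Set.extremePoints ℝ (TR (GG s2 s3 t)) := hφ
  obtain ⟨μ, hμp, hμ, -, -⟩ := Pool.Agent.Helper40.TMA.exists_measure h2 h3 ht hτ hφ'
  refine ⟨μ, ⟨hμp, hμ⟩, ?_⟩
  obtain ⟨hm2, hm3⟩ := inv_of_extreme h2 h3 ht hτ hφ' hμ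
  have hcf : ∀ k : ℕ, cf μ k = φ (τ ^ k) := fun k => by
    have h := hμ k
    rw [zpow_natCast] at h
    exact h
  have h5 := trace_tfae hRG1 hRG2 hRG3 hCB h2 h3 ht hτ hφ' hμp hμ
  have hatom : (∃ x, μ {x} ≠ 0) → FiniteDimensional ℂ (Submodule.span ℂ
      {F : GG s2 s3 t → ℂ | ∃ n : GG s2 s3 t, IsTr n ∧ F = fun x => φ (n * x)}) := by
    rintro ⟨x, hx⟩
    by_contra hfd
    exact hx (Pool.Agent.Helper40.LPA.no_atoms_of_infinite h2 h3 ht hτ hφ' hμ hfd x)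
  tfae_have 1 ↔ 2 := h5.out 0 1
  tfae_have 1 ↔ 3 := h5.out 0 2
  tfae_have 1 ↔ 5 := h5.out 0 3
  tfae_have 1 ↔ 7 := h5.out 0 4
  tfae_have 2 → 4 := by
    rintro ⟨N, hN, h⟩
    refine ⟨2, N, Or.inl rfl, hN, by rw [h]; exact one_ne_zero, fun _ => 0, 1,
      ⟨antitone_const, summable_zero, by norm_num⟩, ?_⟩
    intro b₁ _ b₂ _ b₃ _ b₄ _ D _ e₁ e₂ e₃ e₄ _ _ _ _ _ _ _ _ _ _
    have h6 : ∀ m : ℤ, φ (τ ^ ((N : ℤ) * m)) = 1 := fun m => by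
      rw [← hμ]
      exact cf_mul_eq_one ((hcf N).trans h) m
    rw [h6, h6, h6]
    simp
  tfae_have 4 → 1 := by
    rintro ⟨g, k, hg, hk, hne, ρ, γ, ⟨hρ, hs, hγ⟩, hmix⟩
    have h6 : cf μ = fun n : ℤ => φ (τ ^ n) := funext hμ
    have h7 : Mix4 (cf μ) g k := by
      rw [h6]
      exact ⟨ρ, γ, hρ, hs, hγ, fun b₁ b₂ b₃ b₄ D e₁ e₂ e₃ e₄ => hmix b₁ trivial b₂ trivial b₃
        trivial b₄ trivial D trivial e₁ e₂ e₃ e₄⟩
    exact hatom (hCM μ hμp hm2 hm3 g k hg hk (by rw [hcf]; exact hne) h7)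
  tfae_have 2 → 6 := by
    rintro ⟨N, hN, h⟩
    refine ⟨N, fun _ => {0}, hN, by rw [h]; exact one_ne_zero, ?_, ?_⟩
    · intro M b hb
      rw [Finset.mem_singleton] at hb
      rw [hb]
      exact Nat.zero_le _
    · have h6 : μ.real {x | ‖φ (τ ^ N)‖ / 2 ≤
          ‖Pool.Agent.Helper87.MX.FinalSt5.avg N {0} x - φ (τ ^ N)‖} = 0 := by
        rw [measureReal_eq_zero_iff, measure_eq_zero_iff_ae_notMem]
        have h7 : ∫ x, (fourier (N : ℤ) x : ℂ) ∂μ = 1 := (hcf N).trans h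
        filter_upwards [ae_eq_one h7] with x hx hx2
        have h8 : Pool.Agent.Helper87.MX.FinalSt5.avg N {0} x = 1 := by
          unfold Pool.Agent.Helper87.MX.FinalSt5.avg
          rw [Finset.sum_singleton, Finset.card_singleton]
          simpa using hx
        rw [h8, h] at hx2
        norm_num at hx2
      simp only [h6]
      exact summable_zero
  tfae_have 6 → 1 := by
    rintro ⟨k, F, hk, hne, hF, hs⟩
    refine hatom (hCC μ hμp hm2 hm3 k F hk (by rw [hcf]; exact hne) hF ?_)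
    rw [hcf]
    exact hs
  tfae_finish

end Pool.Agent.Helper25.MX
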