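import Mathlib
import Pool.Agent.Helper40.LPA.Trace
import Pool.Agent.Helper87.MX.Fr

/-!
# One character at trace level

An extreme trace one of whose coefficients mixes to order four at a summable rate along the powers
of two or of three: this coefficient is zero or one, and the trace is conditionally finite
dimensional in the second case.
-/

set_option autoImplicit false

open MeasureTheory Filter Topology Finset Helper17.FU Helper17.FUGroup Helper91.TTT

namespace Pool.Agent.Helper25.MX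

open Pool.Agent.Helper87.MX (Mix4 S_CM S_CF Inv cf)

variable {s2 s3 t : Equiv.Perm ℚ}

/-- TL2, the one character theorem for extreme traces. -/
theorem trace_mix4 (hCM : S_CM) (hCF : S_CF)
    (h2 : ∀ x : ℚ, s2 x = 2 * x) (h3 : ∀ x : ℚ, s3 x = 3 * x)
    (ht : ∀ x : ℚ, t x = x + 1) {τ : GG s2 s3 t} (hτ : (τ : Equiv.Perm ℚ) = t)
    {φ : GG s2 s3 t → ℂ} (hφ : φ ∈ Set.extremePoints ℝ (TR (GG s2 s3 t)))
    {g k : ℕ} (hg : g = 2 ∨ g = 3) (hk : 1 ≤ k)
    (hmix : Mix4 (fun n : ℤ => φ (τ ^ n)) g k) :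
    φ (τ ^ k) = 0 ∨ (φ (τ ^ k) = 1 ∧
      FiniteDimensional ℂ (Submodule.span ℂ {F : GG s2 s3 t → ℂ | ∃ n : GG s2 s3 t,
        IsTr n ∧ F = fun x => φ (n * x)})) := by
  obtain ⟨μ, hμp, hμ, hm2, hm3⟩ := Pool.Agent.Helper40.TMA.exists_measure h2 h3 ht hτ hφ
  have hcf : cf μ = fun n : ℤ => φ (τ ^ n) := funext hμ
  have hck : cf μ k = φ (τ ^ k) := by
    rw [hcf]
    simp only [zpow_natCast]
  rw [← hcf] at hmix
  by_cases hfd : FiniteDimensional ℂ (Submodule.span ℂ {F : GG s2 s3 t → ℂ | ∃ n : GG s2 s3 t,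
      IsTr n ∧ F = fun x => φ (n * x)})
  · have hZ := Pool.Agent.Helper40.LPA.finite_of_fd ht hτ hμ hfd
    rcases hCF μ hμp hm2 hm3 hZ g k hg hk hmix with h | h
    · exact Or.inl (hck.symm.trans h)
    · exact Or.inr ⟨hck.symm.trans h, hfd⟩
  · left
    rw [← hck]
    by_contra h
    obtain ⟨x, hx⟩ := hCM μ hμp hm2 hm3 g k hg hk h hmix
    exact hx (Pool.Agent.Helper40.LPA.no_atoms_of_infinite h2 h3 ht hτ hφ hμ hfd x)

end Pool.Agent.Helper25.MX
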